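import Pool.Agent.helper65.GD.SpecF

set_option autoImplicit false

/-! # The step `z f' = Q g h` with a starlike function `g` -/

namespace Pool.Agent.GD

open Finset Metric Filter Topology

theorem XST (h1 : XEM_stmt) (h2 : XDL_stmt) (h3 : XM2_stmt) (h4 : XM3_stmt) (h5 : XPS_stmt) (h6 : XG1_stmt) (h7 : XG2_stmt) : XST_stmt := by
  intro p g h f Q hg hh hf hQ hpos he
  obtain ⟨hd, Φ, c₀, hG, hc⟩ := hh
  obtain ⟨β, hβ, hgc⟩ := h6 g hg
  obtain ⟨q, κ, hq, hκ, hQc, hκq⟩ := h7 Q hQ hpos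
  have hω : ∀ n, cv (ex (-2) β) (ex 2 β) n = dl n := by
    intro n
    rw [h1.1, show (-2 : ℂ) + 2 = 0 by norm_num, h1.2]
  have hD := h2 β κ hβ hκ
  obtain ⟨ps1, ps2, ps3, -⟩ := h5 p (ex 2 β) Φ hG (ex_zero 2 β)
  obtain ⟨Ψ, hΨ, hstep⟩ := h3 (p + 1) q (psg (ex 2 β) Φ) hq.1 (rgb_holds q hq) ps1 ps2
    (h4 p q κ (ex 2 β) (ex (-2) β) _ Φ hG hκq hω hD)
  refine ⟨hf, Ψ, ?_⟩
  -- the coefficients of `h`
  let c : ℕ → ℂ := fun m => if m = 1 then N2b689f5b.coeff h 0 else c₀ (m - 1)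
  have hhc : ∀ r, N2b689f5b.coeff h r = ∑ m ∈ range (p + 1), c (m + 1) * one0 Φ m r := by
    intro r
    rcases Nat.eq_zero_or_pos r with h0 | h0
    · subst h0
      rw [Finset.sum_range_succ']
      rw [Finset.sum_eq_zero (fun m _ => by
        have : one0 Φ (m + 1) 0 = 0 := by
          unfold one0
          rw [if_neg (by omega)]
          exact hG.low (m + 1) 0 (by omega)
        rw [this, mul_zero])]
      simp [one0, c]
    · rw [MUF_low p Φ c r h0, hc r h0]
      unfold cmb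
      refine Finset.sum_congr rfl fun m hm => ?_
      have h5 := (mem_Icc.1 hm).1
      change c₀ m * Φ m r = (if m + 1 = 1 then N2b689f5b.coeff h 0 else c₀ (m + 1 - 1)) * Φ m r
      rw [if_neg (by omega), show m + 1 - 1 = m by omega]
  -- the coefficients of `g h`
  have hFc : ∀ n, ∑ m ∈ range (n + 1), N2b689f5b.coeff h m * N2b689f5b.coeff g (n - m) =
      deriv g 0 * gs (ex 2 β) (N2b689f5b.coeff h) n := by
    intro n
    rw [Finset.sum_range_succ, Nat.sub_self, hgc 0, if_pos rfl, mul_zero, add_zero]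
    unfold gs
    rw [Finset.mul_sum]
    refine Finset.sum_congr rfl fun m hm => ?_
    have hm' := mem_range.1 hm
    rw [hgc (n - m), if_neg (by omega), show n - m - 1 = n - 1 - m by omega]
    ring
  have hcm : ∀ n, cmb (p + 1) (psg (ex 2 β) Φ) (fun m => Q 0 * deriv g 0 * c m) n =
      Q 0 * (deriv g 0 * gs (ex 2 β) (N2b689f5b.coeff h) n) := by
    intro n
    rw [ps3]
    unfold gs
    rw [Finset.mul_sum, Finset.mul_sum]
    refine Finset.sum_congr rfl fun r _ => ?_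
    have e : ∑ m ∈ range (p + 1), Q 0 * deriv g 0 * c (m + 1) * one0 Φ m r =
        Q 0 * deriv g 0 * ∑ m ∈ range (p + 1), c (m + 1) * one0 Φ m r := by
      rw [Finset.mul_sum]
      refine Finset.sum_congr rfl fun m _ => by ring
    rw [hhc r]
    simp only
    rw [e]
    ring
  -- the equation
  have s1 : Ser (fun n : ℕ => (n : ℂ) * N2b689f5b.coeff f n) (fun z => z * deriv f z) := (CO4 f _ (CO1 f hf)).2
  have s2 : Ser (fun n => ∑ m ∈ range (n + 1), N2b689f5b.coeff h m * N2b689f5b.coeff g (n - m))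
      (fun z => h z * g z) := CO3 h g _ _ (CO1 h hd) (CO1 g hg.analytic)
  have s3 := CO3 _ Q _ _ s2 (CO1 Q hQ)
  have s4 : Ser (fun n : ℕ => (n : ℂ) * N2b689f5b.coeff f n) (fun z => h z * g z * Q z) := by
    intro z hz
    have h8 : HasSum (fun n : ℕ => (n : ℂ) * N2b689f5b.coeff f n * z ^ n) (z * deriv f z) := s1 z hz
    rw [he z hz, show Q z * (g z * h z) = h z * g z * Q z by ring] at h8
    exact h8
  have hcoef := CO2 _ _ _ s4 s3
  obtain ⟨c', hc'⟩ := hstep (fun m => Q 0 * deriv g 0 * c m) (N2b689f5b.coeff f) (by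
    intro n
    have h9 := congrFun hcoef n
    rw [h9]
    unfold cv
    refine Finset.sum_congr rfl fun m _ => ?_
    rw [hFc m, hQc, hcm m]
    ring)
  exact ⟨c', hΨ, hc'⟩

end Pool.Agent.GD
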